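import Mathlib

/-!
# Sensitivity and influence; the iterated function of the Fano plane
-/

namespace Pool.Agent.N988.FP

/-- The sensitivity of `f` at `x`: the number of coordinates whose change changes the value. -/
def sens {ι : Type} [Fintype ι] [DecidableEq ι] (f : (ι → Bool) → Bool) (x : ι → Bool) : ℕ :=
  (Finset.univ.filter fun i => f (Function.update x i (!x i)) ≠ f x).card

/-- The (maximum) sensitivity. -/
def maxSens {ι : Type} [Fintype ι] [DecidableEq ι] (f : (ι → Bool) → Bool) : ℕ :=
  Finset.univ.sup (sens f)

/-- The total influence: the mean of the sensitivity at a uniform point. -/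
noncomputable def totInf {ι : Type} [Fintype ι] [DecidableEq ι] (f : (ι → Bool) → Bool) : ℝ :=
  (∑ x, (sens f x : ℝ)) / Fintype.card (ι → Bool)

/-- The function of the Fano plane: does the set of the ones contain one of the seven lines
`{s, s + 1, s + 3}`? -/
def fano (y : Fin 7 → Bool) : Bool :=
  decide (∃ s : Fin 7, y s = true ∧ y (s + 1) = true ∧ y (s + 3) = true)

/-- The `7 ^ k` variables. -/
def V : ℕ → Type
  | 0 => Unit
  | k + 1 => Fin 7 × V k

instance instF : (k : ℕ) → Fintype (V k)
  | 0 => inferInstanceAs (Fintype Unit)
  | k + 1 => haveI := instF k; inferInstanceAs (Fintype (Fin 7 × V k))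

instance instD : (k : ℕ) → DecidableEq (V k)
  | 0 => inferInstanceAs (DecidableEq Unit)
  | k + 1 => haveI := instD k; inferInstanceAs (DecidableEq (Fin 7 × V k))

/-- The iterated function. -/
def F : (k : ℕ) → (V k → Bool) → Bool
  | 0, x => x ()
  | k + 1, x => fano fun i => F k fun v => x (i, v)

end Pool.Agent.N988.FP
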