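import Mathlib
import Pool.Agent.N988.FP.Defs

open Finset

namespace Pool.Agent.N988.FP

lemma fano_mono {y z : Fin 7 → Bool} (h : y ≤ z) : fano y ≤ fano z := by
  intro h1
  have h2 : ∃ s : Fin 7, y s = true ∧ y (s + 1) = true ∧ y (s + 3) = true := of_decide_eq_true h1
  obtain ⟨s, a, b, c⟩ := h2
  exact decide_eq_true (⟨s, h s a, h (s + 1) b, h (s + 3) c⟩ : ∃ s : Fin 7, z s = true ∧ z (s + 1) = true ∧ z (s + 3) = true)

lemma F_mono : ∀ k : ℕ, Monotone (F k)
  | 0 => fun _ _ h => h ()
  | k + 1 => fun _ _ h => fano_mono fun i => F_mono k fun v => h (i, v)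

lemma fano_sens : ∀ y : Fin 7 → Bool, sens fano y ≤ 3 := by
  decide +kernel

lemma fano_cnt (b : Bool) : ∑ y : Fin 7 → Bool, (if fano y = b then 1 else 0) = 64 := by
  revert b
  decide +kernel

lemma fano_sum (b : Bool) : ∑ y : Fin 7 → Bool, (if fano y = b then sens fano y else 0) = 126 := by
  revert b
  decide +kernel

lemma sens_succ (k : ℕ) (x : V (k + 1) → Bool) :
    sens (F (k + 1)) x = ∑ i : Fin 7,
      if fano (Function.update (fun i => F k fun v => x (i, v)) i (!(F k fun v => x (i, v)))) ≠
        fano (fun i => F k fun v => x (i, v)) then sens (F k) (fun v => x (i, v)) else 0 := by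
  set y : Fin 7 → Bool := fun i => F k fun v => x (i, v) with hy
  have key : ∀ (i : Fin 7) (v : V k),
      F (k + 1) (Function.update x ((i, v) : V (k + 1)) (!x (i, v))) =
        fano (Function.update y i (F k (Function.update (fun w : V k => x (i, w)) v (!x (i, v))))) := by
    intro i v
    change fano (fun j => F k fun w => Function.update x ((i, v) : V (k + 1)) (!x (i, v)) (j, w)) = _
    congr 1
    funext j
    by_cases h : j = i
    · subst h
      rw [Function.update_self]
      congr 1
      funext w
      by_cases hw : w = v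
      · subst hw
        rw [Function.update_self]
        symm
        exact Function.update_self (β := fun _ => Bool) w _ _
      · rw [Function.update_of_ne hw]
        exact Function.update_of_ne (α := V (k + 1)) (fun h => hw (Prod.mk.inj h).2) _ _
    · rw [Function.update_of_ne h]
      change (F k fun w => Function.update x ((i, v) : V (k + 1)) (!x (i, v)) (j, w)) = F k fun w => x (j, w)
      congr 1
      funext w
      exact Function.update_of_ne (α := V (k + 1)) (fun h' => h (Prod.mk.inj h').1) _ _
  have key2 : ∀ (i : Fin 7) (v : V k),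
      (F (k + 1) (Function.update x ((i, v) : V (k + 1)) (!x (i, v))) ≠ F (k + 1) x) ↔
        (fano (Function.update y i (!y i)) ≠ fano y ∧
          F k (Function.update (fun w : V k => x (i, w)) v (!x (i, v))) ≠ F k (fun w : V k => x (i, w))) := by
    intro i v
    rw [key]
    change (fano (Function.update y i _) ≠ fano y) ↔ _ ∧ _ ≠ y i
    generalize F k (Function.update (fun w : V k => x (i, w)) v (!x (i, v))) = c
    by_cases hc : c = y i
    · subst hc
      simp
    · have : c = !y i := by
        revert hc
        cases c <;> cases y i <;> simp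
      subst this
      simp
  unfold sens
  rw [Finset.card_filter]
  change ∑ p : Fin 7 × V k, _ = _
  rw [Fintype.sum_prod_type]
  refine Finset.sum_congr rfl fun i _ => ?_
  rw [Finset.card_filter]
  by_cases h : fano (Function.update y i (!y i)) ≠ fano y
  · rw [if_pos h]
    refine Finset.sum_congr rfl fun v _ => ?_
    have := key2 i v
    by_cases h' : F k (Function.update (fun w : V k => x (i, w)) v (!x (i, v))) ≠ F k (fun w : V k => x (i, w))
    · rw [if_pos (this.2 ⟨h, h'⟩), if_pos h']
    · rw [if_neg (fun h'' => h' (this.1 h'').2), if_neg h']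
  · rw [if_neg h]
    refine Finset.sum_eq_zero fun v _ => ?_
    rw [if_neg (fun h'' => h ((key2 i v).1 h'').1)]

lemma sens_le : ∀ (k : ℕ) (x : V k → Bool), sens (F k) x ≤ 3 ^ k
  | 0, x => by
    unfold sens
    refine (Finset.card_filter_le _ _).trans ?_
    change Fintype.card Unit ≤ 1
    simp
  | k + 1, x => by
    rw [sens_succ]
    set y : Fin 7 → Bool := fun i => F k fun v => x (i, v) with hy
    calc _ ≤ ∑ i : Fin 7, (if fano (Function.update y i (!y i)) ≠ fano y then 3 ^ k else 0) := by
          refine Finset.sum_le_sum fun i _ => ?_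
          split_ifs
          · exact sens_le k _
          · exact le_rfl
      _ = sens fano y * 3 ^ k := by
          rw [← Finset.sum_filter, Finset.sum_const, smul_eq_mul]
          rfl
      _ ≤ 3 * 3 ^ k := Nat.mul_le_mul_right _ (fano_sens y)
      _ = 3 ^ (k + 1) := by ring

/-- Sums over the fibres. -/
lemma push {A : Type} [Fintype A] [DecidableEq A] (φ : A → Bool) (h : A → ℝ) (c H : ℝ)
    (hc : ∀ b, ∑ a, (if φ a = b then (1 : ℝ) else 0) = c)
    (hH : ∀ b, ∑ a, (if φ a = b then h a else 0) = H) (G : (Fin 7 → Bool) → ℝ) (i : Fin 7) :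
    ∑ x : Fin 7 → A, G (fun j => φ (x j)) * h (x i) = c ^ 6 * H * ∑ y, G y := by
  classical
  have h1 : ∑ x : Fin 7 → A, G (fun j => φ (x j)) * h (x i) =
      ∑ x : Fin 7 → A, ∑ y : Fin 7 → Bool, G y *
        ∏ j, (if φ (x j) = y j then (if j = i then h (x j) else 1) else 0) := by
    refine Finset.sum_congr rfl fun x _ => ?_
    rw [Finset.sum_eq_single (fun j => φ (x j))]
    · congr 1
      simp
    · intro y _ hy
      have : ∃ j, φ (x j) ≠ y j := by
        by_contra hcon
        push Not at hcon
        exact hy (funext fun j => (hcon j).symm)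
      obtain ⟨j, hj⟩ := this
      rw [Finset.prod_eq_zero (Finset.mem_univ j) (if_neg hj), mul_zero]
    · intro h
      exact absurd (Finset.mem_univ _) h
  rw [h1, Finset.sum_comm, Finset.mul_sum]
  refine Finset.sum_congr rfl fun y _ => ?_
  rw [← Finset.mul_sum, mul_comm (G y)]
  congr 1
  have h2 : ∑ x : Fin 7 → A, ∏ j, (if φ (x j) = y j then (if j = i then h (x j) else 1) else 0) =
      ∏ j, ∑ a, (if φ a = y j then (if j = i then h a else 1) else 0) := by
    rw [Finset.prod_univ_sum]
    rw [Fintype.piFinset_univ]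
  rw [h2]
  have h3 : ∀ j, ∑ a, (if φ a = y j then (if j = i then h a else (1 : ℝ)) else 0) =
      if j = i then H else c := by
    intro j
    split_ifs with hj
    · exact hH _
    · exact hc _
  simp only [h3]
  rw [Finset.prod_ite, Finset.prod_const, Finset.prod_const]
  have h4 : (Finset.univ.filter fun j : Fin 7 => j = i).card = 1 := by
    rw [Finset.filter_eq' univ i]
    simp
  have h5 : (Finset.univ.filter fun j : Fin 7 => ¬ j = i).card = 6 := by
    rw [Finset.filter_not, Finset.card_sdiff_of_subset (Finset.filter_subset _ _), h4]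
    simp
  rw [h4, h5]
  ring


/-- The number of the points. -/
noncomputable def P (k : ℕ) : ℝ := Fintype.card (V k → Bool)

lemma P_succ (k : ℕ) : P (k + 1) = P k ^ 7 := by
  unfold P
  have h : Fintype.card (V (k + 1) → Bool) = Fintype.card (Fin 7 → (V k → Bool)) :=
    Fintype.card_congr (Equiv.curry (Fin 7) (V k) Bool)
  rw [h, Fintype.card_fun, Fintype.card_fin]
  push_cast
  rfl

lemma sum_curry (k : ℕ) (g : (Fin 7 → (V k → Bool)) → ℝ) :
    ∑ x : V (k + 1) → Bool, g (fun i v => x (i, v)) = ∑ x : Fin 7 → (V k → Bool), g x :=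
  Fintype.sum_equiv (Equiv.curry (Fin 7) (V k) Bool) _ _ fun _ => rfl

lemma cnt : ∀ (k : ℕ) (b : Bool), ∑ x : V k → Bool, (if F k x = b then (1 : ℝ) else 0) = P k / 2
  | 0, b => by
    have h : ∑ x : Unit → Bool, (if x () = b then (1 : ℝ) else 0) =
        ∑ c : Bool, (if c = b then (1 : ℝ) else 0) :=
      Fintype.sum_equiv (Equiv.funUnique Unit Bool) _ _ fun _ => rfl
    change ∑ x : Unit → Bool, (if x () = b then (1 : ℝ) else 0) = _
    have hP : P 0 = 2 := by
      change ((Fintype.card (Unit → Bool) : ℕ) : ℝ) = 2
      simp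
    rw [h, hP]
    simp
  | k + 1, b => by
    have h1 := sum_curry k fun x => if fano (fun i => F k (x i)) = b then (1 : ℝ) else 0
    have h2 := push (F k) (fun _ => (1 : ℝ)) (P k / 2) (P k / 2) (cnt k) (cnt k)
      (fun y => if fano y = b then (1 : ℝ) else 0) 0
    have h3 : ∑ y : Fin 7 → Bool, (if fano y = b then (1 : ℝ) else 0) = 64 := by
      exact_mod_cast congrArg (fun n : ℕ => (n : ℝ)) (fano_cnt b)
    simp only [mul_one] at h2
    calc _ = ∑ x : V (k + 1) → Bool,
          (if fano (fun i => F k fun v => x (i, v)) = b then (1 : ℝ) else 0) := rfl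
      _ = _ := h1
      _ = _ := h2
      _ = _ := by rw [h3, P_succ]; ring

lemma tot : ∀ (k : ℕ) (b : Bool), ∑ x : V k → Bool, (if F k x = b then (sens (F k) x : ℝ) else 0) =
    (63 / 32) ^ k * (P k / 2)
  | 0, b => by
    have h0 : ∀ x : V 0 → Bool, sens (F 0) x = 1 := by
      intro x
      unfold sens
      rw [Finset.filter_true_of_mem]
      · rfl
      · intro i _
        cases i
        change (Function.update x () (!x ())) () ≠ x ()
        rw [Function.update_self]
        cases x () <;> simp
    simp only [h0, Nat.cast_one, pow_zero, one_mul]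
    exact cnt 0 b
  | k + 1, b => by
    have h1 : ∀ x : V (k + 1) → Bool, (if F (k + 1) x = b then (sens (F (k + 1)) x : ℝ) else 0) =
        ∑ i : Fin 7, (if fano (fun i => F k fun v => x (i, v)) = b ∧
          fano (Function.update (fun i => F k fun v => x (i, v)) i (!(F k fun v => x (i, v)))) ≠
            fano (fun i => F k fun v => x (i, v)) then (1 : ℝ) else 0) *
          (sens (F k) (fun v => x (i, v)) : ℝ) := by
      intro x
      change (if fano (fun i => F k fun v => x (i, v)) = b then _ else _) = _
      by_cases h : fano (fun i => F k fun v => x (i, v)) = b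
      · rw [if_pos h, sens_succ]
        push_cast
        refine Finset.sum_congr rfl fun i _ => ?_
        by_cases h' : fano (Function.update (fun i => F k fun v => x (i, v)) i
          (!(F k fun v => x (i, v)))) ≠ fano (fun i => F k fun v => x (i, v))
        · rw [if_pos h', if_pos ⟨h, h'⟩, one_mul]
        · rw [if_neg h', if_neg (fun h'' => h' h''.2), zero_mul]
      · rw [if_neg h]
        symm
        refine Finset.sum_eq_zero fun i _ => ?_
        rw [if_neg (fun h'' => h h''.1), zero_mul]
    have h2 : ∀ i : Fin 7, ∑ x : V (k + 1) → Bool,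
        (if fano (fun i => F k fun v => x (i, v)) = b ∧
          fano (Function.update (fun i => F k fun v => x (i, v)) i (!(F k fun v => x (i, v)))) ≠
            fano (fun i => F k fun v => x (i, v)) then (1 : ℝ) else 0) *
          (sens (F k) (fun v => x (i, v)) : ℝ) =
        (P k / 2) ^ 6 * ((63 / 32) ^ k * (P k / 2)) *
          ∑ y : Fin 7 → Bool, (if fano y = b ∧ fano (Function.update y i (!y i)) ≠ fano y
            then (1 : ℝ) else 0) := by
      intro i
      have h3 := sum_curry k fun x => (if fano (fun i => F k (x i)) = b ∧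
          fano (Function.update (fun i => F k (x i)) i (!(F k (x i)))) ≠
            fano (fun i => F k (x i)) then (1 : ℝ) else 0) * (sens (F k) (x i) : ℝ)
      have h4 := push (F k) (fun a => (sens (F k) a : ℝ)) (P k / 2) ((63 / 32) ^ k * (P k / 2))
        (cnt k) (tot k) (fun y => if fano y = b ∧ fano (Function.update y i (!y i)) ≠ fano y
            then (1 : ℝ) else 0) i
      exact h3.trans h4
    have h5 : ∑ i : Fin 7, ∑ y : Fin 7 → Bool,
        (if fano y = b ∧ fano (Function.update y i (!y i)) ≠ fano y then (1 : ℝ) else 0) = 126 := by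
      rw [Finset.sum_comm]
      have h6 := congrArg (fun n : ℕ => (n : ℝ)) (fano_sum b)
      push_cast at h6
      rw [← h6]
      refine Finset.sum_congr rfl fun y _ => ?_
      by_cases h : fano y = b
      · rw [if_pos h]
        unfold sens
        rw [Finset.card_filter]
        push_cast
        refine Finset.sum_congr rfl fun i _ => ?_
        by_cases h' : fano (Function.update y i (!y i)) ≠ fano y
        · rw [if_pos ⟨h, h'⟩, if_pos h']
        · rw [if_neg (fun h'' => h' h''.2), if_neg h']
      · rw [if_neg h]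
        refine Finset.sum_eq_zero fun i _ => ?_
        rw [if_neg (fun h'' => h h''.1)]
    rw [Finset.sum_congr rfl fun x _ => h1 x, Finset.sum_comm, Finset.sum_congr rfl fun i _ => h2 i,
      ← Finset.mul_sum, h5, P_succ]
    ring

lemma P_pos (k : ℕ) : 0 < P k := by
  unfold P
  exact_mod_cast Fintype.card_pos

theorem totInf_F (k : ℕ) : totInf (F k) = (63 / 32) ^ k := by
  have h : ∑ x : V k → Bool, (sens (F k) x : ℝ) = (63 / 32) ^ k * P k := by
    have h1 : ∀ x : V k → Bool, (sens (F k) x : ℝ) =
        (if F k x = true then (sens (F k) x : ℝ) else 0) +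
          (if F k x = false then (sens (F k) x : ℝ) else 0) := by
      intro x
      cases F k x <;> simp
    rw [Finset.sum_congr rfl fun x _ => h1 x, Finset.sum_add_distrib, tot, tot]
    ring
  unfold totInf
  rw [h]
  exact mul_div_cancel_right₀ _ (P_pos k).ne'

lemma totInf_le {ι : Type} [Fintype ι] [DecidableEq ι] (f : (ι → Bool) → Bool) :
    totInf f ≤ maxSens f := by
  unfold totInf
  have h0 : (0 : ℝ) < Fintype.card (ι → Bool) := by exact_mod_cast Fintype.card_pos
  rw [div_le_iff₀ h0]
  calc ∑ x, (sens f x : ℝ) ≤ ∑ _x : ι → Bool, (maxSens f : ℝ) := by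
        refine Finset.sum_le_sum fun x _ => ?_
        exact_mod_cast Finset.le_sup (f := sens f) (Finset.mem_univ x)
    _ = maxSens f * Fintype.card (ι → Bool) := by
        rw [Finset.sum_const, Finset.card_univ, nsmul_eq_mul, mul_comm]

theorem main : (6165 : ℝ) / 10000 < Real.log (63 / 32) / Real.log 3 ∧
    (∀ k : ℕ, Monotone (F k) ∧ maxSens (F k) ≤ 3 ^ k ∧ totInf (F k) = (63 / 32) ^ k) ∧
    ∀ S : ℕ, ∃ k : ℕ, S ≤ maxSens (F k) ∧
      (maxSens (F k) : ℝ) ^ (Real.log (63 / 32) / Real.log 3) ≤ totInf (F k) := by
  have hl3 : 0 < Real.log 3 := Real.log_pos (by norm_num)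
  refine ⟨?_, fun k => ⟨F_mono k, Finset.sup_le fun x _ => sens_le k x, totInf_F k⟩, fun S => ?_⟩
  · rw [lt_div_iff₀ hl3]
    have h1 : Real.log ((3 : ℝ) ^ 119) < Real.log ((63 / 32 : ℝ) ^ 193) :=
      Real.log_lt_log (by positivity) (by norm_num)
    rw [Real.log_pow, Real.log_pow] at h1
    push_cast at h1
    nlinarith
  · obtain ⟨k, hk⟩ := pow_unbounded_of_one_lt (S : ℝ) (by norm_num : (1 : ℝ) < 63 / 32)
    have h1 : (maxSens (F k) : ℝ) ≤ 3 ^ k := by
      have : maxSens (F k) ≤ 3 ^ k := Finset.sup_le fun x _ => sens_le k x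
      exact_mod_cast this
    have h2 := totInf_F k
    have h3 := totInf_le (F k)
    refine ⟨k, ?_, ?_⟩
    · have : (S : ℝ) ≤ maxSens (F k) := by linarith
      exact_mod_cast this
    · have hc : 0 ≤ Real.log (63 / 32) / Real.log 3 :=
        div_nonneg (Real.log_nonneg (by norm_num)) hl3.le
      calc (maxSens (F k) : ℝ) ^ (Real.log (63 / 32) / Real.log 3)
          ≤ ((3 : ℝ) ^ k) ^ (Real.log (63 / 32) / Real.log 3) :=
            Real.rpow_le_rpow (Nat.cast_nonneg _) h1 hc
        _ = (63 / 32) ^ k := by
            rw [← Real.rpow_natCast 3 k, ← Real.rpow_mul (by norm_num), mul_comm,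
              Real.rpow_mul (by norm_num), Real.rpow_natCast]
            congr 1
            rw [Real.rpow_def_of_pos (by norm_num), mul_div_cancel₀ _ hl3.ne',
              Real.exp_log (by norm_num)]
        _ = totInf (F k) := h2.symm

end Pool.Agent.N988.FP
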